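import Mathlib

set_option autoImplicit false
set_option maxHeartbeats 400000

open Polynomial

namespace Pool.Agent.Results.MP_f7162b_al.NotCofin

/-- every surjective endomorphism is an automorphism. -/
def Hopfian (G : Type) [AddCommGroup G] : Prop :=
  ∀ φ : G →+ G, Function.Surjective φ → Function.Bijective φ

/-- `n • x = 0` with `n ≠ 0` forces `x = 0`. -/
def TorsionFree (G : Type) [AddCommGroup G] : Prop :=
  ∀ (n : ℤ) (x : G), n ≠ 0 → n • x = 0 → x = 0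

/-- every endomorphism with finite cokernel has trivial kernel. -/
def CofinitelyInjective (G : Type) [AddCommGroup G] : Prop :=
  ∀ φ : G →+ G, Finite (G ⧸ φ.range) → φ.ker = ⊥

abbrev V := ℚ[X]

/-- polynomials with `p`-integral coefficients -/
def O (p : ℕ) [Fact p.Prime] : AddSubgroup V where
  carrier := {a | ∀ n, padicNorm p (a.coeff n) ≤ 1}
  zero_mem' := fun n => by simp
  add_mem' := fun {a b} ha hb n => by
    rw [coeff_add]; exact padicNorm.nonarchimedean.trans (max_le (ha n) (hb n))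
  neg_mem' := fun {a} ha n => by rw [coeff_neg, padicNorm.neg]; exact ha n

def Z : AddSubgroup V where
  carrier := {a | ∀ n, ∃ z : ℤ, a.coeff n = z}
  zero_mem' := fun n => ⟨0, by simp⟩
  add_mem' := fun {a b} ha hb n => by
    obtain ⟨x, hx⟩ := ha n
    obtain ⟨y, hy⟩ := hb n
    exact ⟨x + y, by simp [hx, hy]⟩
  neg_mem' := fun {a} ha n => by
    obtain ⟨x, hx⟩ := ha n
    exact ⟨-x, by simp [hx]⟩

noncomputable def t : V →ₗ[ℚ] V where
  toFun := divX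
  map_add' _ _ := divX_add
  map_smul' c a := by ext n; simp [coeff_divX]

theorem t_coeff (a : V) (n : ℕ) : (t a).coeff n = a.coeff (n + 1) := coeff_divX

theorem t_Z {a : V} (h : a ∈ Z) : t a ∈ Z := fun n => by rw [t_coeff]; exact h (n + 1)
theorem t_O {p : ℕ} [Fact p.Prime] {a : V} (h : a ∈ O p) : t a ∈ O p :=
  fun n => by rw [t_coeff]; exact h (n + 1)
theorem tX (a : V) : t (X * a) = a := by ext n; rw [t_coeff, coeff_X_mul]
theorem X_Z {a : V} (h : a ∈ Z) : X * a ∈ Z := by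
  intro n
  cases n with
  | zero => exact ⟨0, by simp⟩
  | succ n => rw [coeff_X_mul]; exact h n

theorem smul_O (p q k : ℕ) [Fact p.Prime] [Fact q.Prime] (hpq : p ≠ q) {a : V} (h : a ∈ Z) :
    ((q : ℚ) ^ k)⁻¹ • a ∈ O p := by
  intro n
  obtain ⟨z, hz⟩ := h n
  have h1 : padicNorm p ((q : ℚ) ^ k) = 1 := by
    induction k with
    | zero => simp
    | succ k ih => rw [pow_succ, padicNorm.mul, ih, padicNorm.padicNorm_of_prime_of_ne hpq, one_mul]
  rw [coeff_smul, hz, smul_eq_mul, ← div_eq_inv_mul, padicNorm.div, h1, div_one]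
  exact padicNorm.of_int z

theorem O_zero (p : ℕ) [hp : Fact p.Prime] (a : V) (h : ∀ k : ℕ, ((p : ℚ) ^ k)⁻¹ • a ∈ O p) :
    a = 0 := by
  ext n
  by_contra h0
  have hpos : 0 < padicNorm p (a.coeff n) :=
    lt_of_le_of_ne (padicNorm.nonneg _) (padicNorm.nonzero h0).symm
  have h1 : ∀ k : ℕ, padicNorm p ((p : ℚ) ^ k) = ((p : ℚ) ^ k)⁻¹ := by
    intro k
    induction k with
    | zero => simp
    | succ k ih =>
      rw [pow_succ, padicNorm.mul, ih, padicNorm.padicNorm_p_of_prime, mul_inv]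
  obtain ⟨k, hk⟩ := pow_unbounded_of_one_lt (padicNorm p (a.coeff n))⁻¹
    (show (1 : ℚ) < p by exact_mod_cast hp.out.one_lt)
  have := h k n
  rw [coeff_smul, smul_eq_mul, ← div_eq_inv_mul, padicNorm.div, h1, div_inv_eq_mul] at this
  rw [inv_lt_iff_one_lt_mul₀' hpos] at hk
  linarith

instance : Fact (Nat.Prime 3) := ⟨by norm_num⟩
instance : Fact (Nat.Prime 5) := ⟨by norm_num⟩
instance : Fact (Nat.Prime 7) := ⟨by norm_num⟩
instance : Fact (Nat.Prime 11) := ⟨by norm_num⟩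

noncomputable def h : V × V := (C (1 / 2), 0)

inductive Gen : V × V → Prop
  | g2 : Gen h
  | g3 (k : ℕ) (a : V) (ha : a ∈ Z) : Gen ((((3 : ℕ) : ℚ) ^ k)⁻¹ • (a, 0))
  | g5 (k : ℕ) (a : V) (ha : a ∈ Z) : Gen ((((5 : ℕ) : ℚ) ^ k)⁻¹ • (0, a))
  | g7 (k : ℕ) (a : V) (ha : a ∈ Z) : Gen ((((7 : ℕ) : ℚ) ^ k)⁻¹ • (a, a))
  | g11 (k : ℕ) (a : V) (ha : a ∈ Z) : Gen ((((11 : ℕ) : ℚ) ^ k)⁻¹ • (a, t a))

noncomputable def G : AddSubgroup (V × V) := AddSubgroup.closure {v | Gen v}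

theorem gen {v : V × V} (hv : Gen v) : v ∈ G := AddSubgroup.subset_closure hv

theorem le_of (K : AddSubgroup (V × V)) (hK : ∀ v, Gen v → v ∈ K) {v : V × V} (hv : v ∈ G) :
    v ∈ K := (AddSubgroup.closure_le K).2 hK hv

theorem half (p : ℕ) [Fact p.Prime] (hp : p ≠ 2) : (C (1 / 2) : V) ∈ O p := by
  have := smul_O p 2 1 hp (a := 1) (fun n => by
    rw [coeff_one]; split_ifs
    exacts [⟨1, by simp⟩, ⟨0, by simp⟩])
  convert this using 1
  simp [smul_eq_C_mul]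

theorem t_half : t (C (1 / 2)) = 0 := divX_C _

theorem inv_gen (p : ℕ) [Fact p.Prime] (ℓ : V × V →ₗ[ℚ] V) (h2 : ℓ h ∈ O p)
    (hZ : ∀ a ∈ Z, ∀ b ∈ Z, ℓ (a, b) ∈ Z) (h3 : p = 3 → ∀ a, ℓ (a, 0) = 0)
    (h5 : p = 5 → ∀ a, ℓ (0, a) = 0) (h7 : p = 7 → ∀ a, ℓ (a, a) = 0)
    (h11 : p = 11 → ∀ a, ℓ (a, t a) = 0) (v : V × V) (hv : v ∈ G) : ℓ v ∈ O p := by
  have key : ∀ (q k : ℕ) [Fact q.Prime] (a b : V), a ∈ Z → b ∈ Z → (p = q → ℓ (a, b) = 0) →
      ((q : ℚ) ^ k)⁻¹ • (a, b) ∈ (O p).comap ℓ.toAddMonoidHom := by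
    intro q k _ a b ha hb h0
    rw [AddSubgroup.mem_comap, LinearMap.toAddMonoidHom_coe, map_smul]
    by_cases e : p = q
    · rw [h0 e, smul_zero]; exact zero_mem _
    · exact smul_O p q k e (hZ a ha b hb)
  refine le_of ((O p).comap ℓ.toAddMonoidHom) ?_ hv
  rintro _ (_ | ⟨k, a, ha⟩ | ⟨k, a, ha⟩ | ⟨k, a, ha⟩ | ⟨k, a, ha⟩)
  · exact h2
  · exact key 3 k a 0 ha (zero_mem _) fun e => h3 e a
  · exact key 5 k 0 a (zero_mem _) ha fun e => h5 e a
  · exact key 7 k a a ha ha fun e => h7 e a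
  · exact key 11 k a (t a) ha (t_Z ha) fun e => h11 e a

theorem inv2 (v : V × V) (hv : v ∈ G) : LinearMap.snd ℚ V V v ∈ O 2 :=
  inv_gen 2 _ (by simp [h]) (fun _ _ _ hb => hb) (by simp) (by simp) (by simp) (by simp) v hv

theorem inv3 (v : V × V) (hv : v ∈ G) : LinearMap.snd ℚ V V v ∈ O 3 :=
  inv_gen 3 _ (by simp [h]) (fun _ _ _ hb => hb) (by simp) (by simp) (by simp) (by simp) v hv

theorem inv5 (v : V × V) (hv : v ∈ G) : LinearMap.fst ℚ V V v ∈ O 5 :=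
  inv_gen 5 _ (half 5 (by norm_num)) (fun _ ha _ _ => ha) (by simp) (by simp) (by simp) (by simp)
    v hv

theorem inv7 (v : V × V) (hv : v ∈ G) : (LinearMap.fst ℚ V V - LinearMap.snd ℚ V V) v ∈ O 7 :=
  inv_gen 7 _ (sub_mem (half 7 (by norm_num)) (zero_mem _)) (fun _ ha _ hb => sub_mem ha hb)
    (by simp) (by simp) (by simp) (by simp) v hv

theorem inv11 (v : V × V) (hv : v ∈ G) :
    (t ∘ₗ LinearMap.fst ℚ V V - LinearMap.snd ℚ V V) v ∈ O 11 :=
  inv_gen 11 _ (sub_mem (t_O (half 11 (by norm_num))) (zero_mem _))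
    (fun _ ha _ hb => sub_mem (t_Z ha) hb) (by simp) (by simp) (by simp) (by simp) v hv

theorem m10 {a : V} (ha : a ∈ Z) : (a, 0) ∈ G := by simpa using gen (Gen.g3 0 a ha)
theorem m01 {a : V} (ha : a ∈ Z) : (0, a) ∈ G := by simpa using gen (Gen.g5 0 a ha)

theorem denom {v : V × V} (hv : v ∈ G) :
    ∃ (j : ℤ) (m : ℕ), Odd m ∧ (m • (v - j • h)).1 ∈ Z ∧ (m • (v - j • h)).2 ∈ Z := by
  have key : ∀ (q k : ℕ) (w : V × V), Odd q → w.1 ∈ Z → w.2 ∈ Z → ∃ (j : ℤ) (m : ℕ), Odd m ∧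
      (m • (((q : ℚ) ^ k)⁻¹ • w - j • h)).1 ∈ Z ∧ (m • (((q : ℚ) ^ k)⁻¹ • w - j • h)).2 ∈ Z := by
    intro q k w hq h1 h2
    have : (q ^ k) • (((q : ℚ) ^ k)⁻¹ • w - (0 : ℤ) • h) = w := by
      have hq0 : (q : ℚ) ^ k ≠ 0 := pow_ne_zero _ (by exact_mod_cast hq.pos.ne')
      rw [zero_smul, sub_zero, ← Nat.cast_smul_eq_nsmul ℚ, smul_smul, Nat.cast_pow,
        mul_inv_cancel₀ hq0, one_smul]
    exact ⟨0, q ^ k, hq.pow, by rw [this]; exact h1, by rw [this]; exact h2⟩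
  induction hv using AddSubgroup.closure_induction with
  | mem x hx =>
    rcases hx with (_ | ⟨k, a, ha⟩ | ⟨k, a, ha⟩ | ⟨k, a, ha⟩ | ⟨k, a, ha⟩)
    · exact ⟨1, 1, odd_one, by simp, by simp⟩
    · exact key 3 k _ (by decide) ha (zero_mem _)
    · exact key 5 k _ (by decide) (zero_mem _) ha
    · exact key 7 k _ (by decide) ha ha
    · exact key 11 k _ (by decide) ha (t_Z ha)
  | zero => exact ⟨0, 1, odd_one, by simp, by simp⟩
  | add x y _ _ hx hy =>
    obtain ⟨i, m, hm, a1, a2⟩ := hx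
    obtain ⟨j, n, hn, b1, b2⟩ := hy
    have e : (m * n) • (x + y - (i + j) • h) = n • (m • (x - i • h)) + m • (n • (y - j • h)) := by
      module
    exact ⟨i + j, m * n, hm.mul hn, by rw [e]; exact add_mem (nsmul_mem a1 n) (nsmul_mem b1 m),
      by rw [e]; exact add_mem (nsmul_mem a2 n) (nsmul_mem b2 m)⟩
  | neg x _ hx =>
    obtain ⟨i, m, hm, a1, a2⟩ := hx
    have e : m • (-x - (-i) • h) = - (m • (x - i • h)) := by module
    exact ⟨-i, m, hm, by rw [e]; exact neg_mem a1, by rw [e]; exact neg_mem a2⟩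

theorem tf (n : ℤ) (x : G) (hn : n ≠ 0) (hx : n • x = 0) : x = 0 := by
  have : (n : ℚ) • (x : V × V) = 0 := by
    rw [Int.cast_smul_eq_zsmul]; exact congrArg Subtype.val hx
  exact Subtype.ext ((smul_eq_zero.1 this).resolve_left (by exact_mod_cast hn))

theorem divis (ψ : G →+ G) (p : ℕ) [hp : Fact p.Prime] (ℓ : V × V →ₗ[ℚ] V)
    (hℓ : ∀ v ∈ G, ℓ v ∈ O p) (w : V × V) (hw : w ∈ G)
    (hk : ∀ k : ℕ, ((p : ℚ) ^ k)⁻¹ • w ∈ G) : ℓ (ψ ⟨w, hw⟩) = 0 := by
  apply O_zero p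
  intro k
  have hq0 : (p : ℚ) ^ k ≠ 0 := pow_ne_zero _ (by exact_mod_cast hp.out.ne_zero)
  have e : (⟨w, hw⟩ : G) = (p ^ k) • ⟨_, hk k⟩ := by
    apply Subtype.ext
    show w = (p ^ k) • (((p : ℚ) ^ k)⁻¹ • w)
    rw [← Nat.cast_smul_eq_nsmul ℚ, smul_smul, Nat.cast_pow, mul_inv_cancel₀ hq0, one_smul]
  rw [e, map_nsmul, AddSubgroup.coe_nsmul, map_nsmul, ← Nat.cast_smul_eq_nsmul ℚ, smul_smul,
    Nat.cast_pow, inv_mul_cancel₀ hq0, one_smul]
  exact hℓ _ (Subtype.prop _)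

theorem one_Z : (1 : V) ∈ Z := fun n => by
  rw [coeff_one]; split_ifs
  exacts [⟨1, by simp⟩, ⟨0, by simp⟩]

theorem hopf : Hopfian G := by
  intro ψ hs
  refine ⟨?_, hs⟩
  let i1 : Z →+ G := ((AddMonoidHom.inl V V).comp Z.subtype).codRestrict G fun a => m10 a.2
  let i2 : Z →+ G := ((AddMonoidHom.inr V V).comp Z.subtype).codRestrict G fun a => m01 a.2
  let θ : Z →+ V := ((AddMonoidHom.fst V V).comp G.subtype).comp (ψ.comp i1)
  have e1 : ∀ a : Z, (ψ (i1 a) : V × V) = (θ a, 0) := fun a => Prod.ext rfl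
    (divis ψ 3 (LinearMap.snd ℚ V V) inv3 _ (m10 a.2)
      fun k => gen (Gen.g3 k a a.2))
  have f2 : ∀ a : Z, (ψ (i2 a) : V × V).1 = 0 := fun a =>
    divis ψ 5 (LinearMap.fst ℚ V V) inv5 _ (m01 a.2)
      fun k => gen (Gen.g5 k a a.2)
  have sum : ∀ a b : Z, ∃ hm, i1 a + i2 b = ⟨(a, b), hm⟩ := fun a b =>
    ⟨by simpa using G.add_mem (m10 a.2) (m01 b.2), Subtype.ext (by simp [i1, i2])⟩
  have e2 : ∀ a : Z, (ψ (i2 a) : V × V) = (0, θ a) := by
    intro a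
    obtain ⟨hm, e⟩ := sum a a
    have := divis ψ 7 (LinearMap.fst ℚ V V - LinearMap.snd ℚ V V) inv7 _ hm
      fun k => gen (Gen.g7 k a a.2)
    rw [← e, map_add, AddSubgroup.coe_add, e1] at this
    refine Prod.ext (f2 a) ?_
    simp only [LinearMap.sub_apply, LinearMap.fst_apply, LinearMap.snd_apply, Prod.fst_add,
      Prod.snd_add, f2, add_zero, zero_add] at this
    exact (sub_eq_zero.1 this).symm
  have e3 : ∀ a : Z, θ ⟨t a, t_Z a.2⟩ = t (θ a) := by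
    intro a
    obtain ⟨hm, e⟩ := sum a ⟨t a, t_Z a.2⟩
    have := divis ψ 11 (t ∘ₗ LinearMap.fst ℚ V V - LinearMap.snd ℚ V V) inv11 _
      hm fun k => gen (Gen.g11 k a a.2)
    rw [← e, map_add, AddSubgroup.coe_add, e1, e2] at this
    simp only [LinearMap.sub_apply, LinearMap.comp_apply, LinearMap.fst_apply,
      LinearMap.snd_apply, Prod.fst_add, Prod.snd_add, add_zero, zero_add] at this
    exact (sub_eq_zero.1 this).symm
  have e4 : ∀ (n : ℕ) (a : Z), (a : V).natDegree = n → a ≠ 0 → θ a = 0 → θ ⟨1, one_Z⟩ = 0 := by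
    intro n
    induction n with
    | zero =>
      intro a hd h0 ha
      obtain ⟨z, hz⟩ := a.2 0
      have e : a = z • ⟨1, one_Z⟩ := by
        apply Subtype.ext
        show (a : V) = z • (1 : V)
        rw [eq_C_of_natDegree_eq_zero hd, hz]; simp
      have hz0 : (z : ℚ) ≠ 0 := by
        intro hh
        apply h0
        rw [e, show z = 0 by exact_mod_cast hh, zero_smul]
      rw [e, map_zsmul, ← Int.cast_smul_eq_zsmul ℚ] at ha
      exact (smul_eq_zero.1 ha).resolve_left hz0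
    | succ n ih =>
      intro a hd _ ha
      refine ih ⟨t a, t_Z a.2⟩ ?_ ?_ (by rw [e3, ha, map_zero])
      · show (divX (a : V)).natDegree = n
        rw [natDegree_divX_eq_natDegree_tsub_one, hd]; rfl
      · intro hh
        have : divX (a : V) = 0 := congrArg Subtype.val hh
        rw [divX_eq_zero_iff] at this
        rw [this, natDegree_C] at hd
        omega
  have hh : h ∈ G := gen Gen.g2
  have two : (2 : ℕ) • (⟨h, hh⟩ : G) = i1 ⟨1, one_Z⟩ := by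
    apply Subtype.ext
    show (2 : ℕ) • h = ((1 : V), (0 : V))
    rw [two_nsmul, h, Prod.mk_add_mk, ← C_add]; norm_num
  have dec : ∀ g : G, ∃ (j : ℤ) (m : ℕ) (a b : Z), Odd m ∧
      m • (g - j • ⟨h, hh⟩) = i1 a + i2 b := by
    intro g
    obtain ⟨j, m, hm, a1, a2⟩ := denom g.2
    obtain ⟨hm', e⟩ := sum ⟨_, a1⟩ ⟨_, a2⟩
    exact ⟨j, m, _, _, hm, by rw [e]; rfl⟩
  rw [injective_iff_map_eq_zero]
  intro g hg
  by_contra hg0
  have th1 : θ ⟨1, one_Z⟩ = 0 := by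
    obtain ⟨j, m, a, b, hm, e⟩ := dec g
    have e' : (2 * m) • g = i1 (2 • a + (m * j) • ⟨1, one_Z⟩) + i2 (2 • b) := by
      rw [map_add, map_nsmul, map_nsmul, map_zsmul, ← two]
      linear_combination (norm := module) 2 • e
    have h1 := congrArg (fun z => (ψ z : V × V)) e'
    simp only [map_nsmul ψ, hg, smul_zero, map_add ψ, AddSubgroup.coe_add, e1, e2,
      Prod.mk_add_mk, add_zero, zero_add, AddSubgroup.coe_zero] at h1
    by_cases ha : 2 • a + (m * j) • (⟨1, one_Z⟩ : Z) = 0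
    · by_cases hb : 2 • b = 0
      · rw [ha, hb, map_zero, map_zero, add_zero] at e'
        exact absurd (tf ((2 * m : ℕ) : ℤ) g (by have := hm.pos; omega)
          (by rw [natCast_zsmul]; exact e')) hg0
      · exact e4 _ _ rfl hb (congrArg Prod.snd h1).symm
    · exact e4 _ _ rfl ha (congrArg Prod.fst h1).symm
  have ph : ψ ⟨h, hh⟩ = 0 := by
    apply tf 2 _ (by norm_num)
    apply Subtype.ext
    have := e1 ⟨1, one_Z⟩
    rw [← two, map_nsmul, th1] at this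
    exact this
  obtain ⟨g'', hg''⟩ := hs ⟨h, hh⟩
  obtain ⟨j, m, a, b, hm, e⟩ := dec g''
  have h1 := congrArg (fun z => (ψ z : V × V).1) e
  simp only [map_nsmul, map_sub, map_zsmul, ph, smul_zero, sub_zero, hg'', map_add,
    AddSubgroup.coe_add, e1, e2, Prod.mk_add_mk, add_zero, AddSubgroup.coe_nsmul,
    Prod.smul_fst] at h1
  have h2 := inv2 _ (ψ (i2 a)).2 0
  rw [e2, LinearMap.snd_apply, ← h1] at h2
  obtain ⟨r, rfl⟩ := hm
  have h3 : ((2 * r + 1) • h.1).coeff 0 = ((2 * r + 1 : ℕ) : ℚ) / (2 : ℕ) := by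
    simp [h]; ring
  have h4 : padicNorm 2 ((2 * r + 1 : ℕ) : ℚ) = 1 :=
    (padicNorm.nat_eq_one_iff _).2 (by omega)
  rw [h3, padicNorm.div, h4, padicNorm.padicNorm_p_of_prime] at h2
  norm_num at h2

noncomputable def T : V × V →ₗ[ℚ] V × V := t.prodMap t

theorem T_mem (v : V × V) (hv : v ∈ G) : T v ∈ G := by
  refine le_of (G.comap T.toAddMonoidHom) ?_ hv
  rintro _ (_ | ⟨k, a, ha⟩ | ⟨k, a, ha⟩ | ⟨k, a, ha⟩ | ⟨k, a, ha⟩)
  · show T h ∈ G
    have : T h = 0 := by simp only [T, h, LinearMap.prodMap_apply, t_half, map_zero]; rfl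
    rw [this]; exact zero_mem _
  · simpa [T] using gen (Gen.g3 k _ (t_Z ha))
  · simpa [T] using gen (Gen.g5 k _ (t_Z ha))
  · simpa [T] using gen (Gen.g7 k _ (t_Z ha))
  · simpa [T] using gen (Gen.g11 k _ (t_Z ha))

noncomputable def φ : G →+ G := (T.toAddMonoidHom.comp G.subtype).codRestrict G fun v => T_mem _ v.2

theorem result : ∃ (A : Type) (_ : AddCommGroup A),
    TorsionFree A ∧ Hopfian A ∧ ¬ CofinitelyInjective A := by
  refine ⟨G, inferInstance, tf, hopf, fun hc => ?_⟩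
  have hh : h ∈ G := gen Gen.g2
  have hR : ∀ v w (hv : v ∈ G) (hw : w ∈ G), T w = v →
      (QuotientAddGroup.mk ⟨v, hv⟩ : G ⧸ φ.range) = 0 := fun v w hv hw e =>
    (QuotientAddGroup.eq_zero_iff _).2 ⟨⟨w, hw⟩, Subtype.ext e⟩
  let q : G ⧸ φ.range := QuotientAddGroup.mk ⟨h, hh⟩
  have q2 : q + q = 0 := hR _ (X * 1, 0) (G.add_mem hh hh) (m10 (X_Z one_Z)) (by
    simp only [T, LinearMap.prodMap_apply, tX, map_zero, h, Prod.mk_add_mk, ← C_add]; norm_num)
  have all : ∀ v (hv : v ∈ G), (QuotientAddGroup.mk ⟨v, hv⟩ : G ⧸ φ.range) = 0 ∨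
      (QuotientAddGroup.mk ⟨v, hv⟩ : G ⧸ φ.range) = q := by
    intro v hv
    induction hv using AddSubgroup.closure_induction with
    | mem x hx =>
      rcases hx with (_ | ⟨k, a, ha⟩ | ⟨k, a, ha⟩ | ⟨k, a, ha⟩ | ⟨k, a, ha⟩)
      · exact Or.inr rfl
      · exact Or.inl (hR _ _ _ (gen (Gen.g3 k _ (X_Z ha))) (by simp [T, tX]))
      · exact Or.inl (hR _ _ _ (gen (Gen.g5 k _ (X_Z ha))) (by simp [T, tX]))
      · exact Or.inl (hR _ _ _ (gen (Gen.g7 k _ (X_Z ha))) (by simp [T, tX]))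
      · exact Or.inl (hR _ _ _ (gen (Gen.g11 k _ (X_Z ha))) (by simp [T, tX]))
    | zero => exact Or.inl rfl
    | add x y hx hy ix iy =>
      have e : (QuotientAddGroup.mk ⟨x + y, add_mem hx hy⟩ : G ⧸ φ.range) =
          QuotientAddGroup.mk ⟨x, hx⟩ + QuotientAddGroup.mk ⟨y, hy⟩ := rfl
      rw [e]
      rcases ix with ix | ix <;> rcases iy with iy | iy <;> rw [ix, iy] <;> simp [q2]
    | neg x hx ix =>
      have e : (QuotientAddGroup.mk ⟨-x, neg_mem hx⟩ : G ⧸ φ.range) =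
          - QuotientAddGroup.mk ⟨x, hx⟩ := rfl
      rw [e]
      rcases ix with ix | ix <;> rw [ix]
      · left; simp
      · right; exact neg_eq_of_add_eq_zero_left q2
  have fin : Finite (G ⧸ φ.range) := by
    have : (Set.univ : Set (G ⧸ φ.range)) ⊆ {0, q} := by
      intro z _
      obtain ⟨⟨v, hv⟩, rfl⟩ := QuotientAddGroup.mk_surjective z
      exact all v hv
    exact Set.finite_univ_iff.1 ((Set.toFinite _).subset this)
  have hk : (⟨h, hh⟩ : G) ∈ φ.ker := by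
    apply Subtype.ext
    show T h = 0
    simp only [T, h, LinearMap.prodMap_apply, t_half, map_zero]; rfl
  rw [hc φ fin, AddSubgroup.mem_bot] at hk
  have := congrArg (fun z : G => (z : V × V).1.coeff 0) hk
  simp [h] at this

end Pool.Agent.Results.MP_f7162b_al.NotCofin
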